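import Pool.Agent.V1138.RK.Alg2

/-! The process `a^N b^M c c c …`. -/

namespace Pool.V1138.RK

open MeasureTheory Filter
open scoped ENNReal

/-- the discrete measure with weights `w` -/
noncomputable def wm (w : ℕ × ℕ → ℝ) : Measure (ℕ × ℕ) :=
  Measure.sum (fun ω => ENNReal.ofReal (w ω) • Measure.dirac ω)

lemma wm_singleton (w : ℕ × ℕ → ℝ) (x : ℕ × ℕ) : wm w {x} = ENNReal.ofReal (w x) := by
  unfold wm
  rw [Measure.sum_apply _ (measurableSet_singleton x), tsum_eq_single x]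
  · simp
  · intro y hy
    simp [hy]

lemma wm_prob {w : ℕ × ℕ → ℝ} (h0 : ∀ ω, 0 ≤ w ω) (h1 : HasSum w 1) : IsProbabilityMeasure (wm w) := by
  constructor
  unfold wm
  rw [Measure.sum_apply _ MeasurableSet.univ]
  simp only [Measure.smul_apply, smul_eq_mul, measure_univ, mul_one]
  rw [← ENNReal.ofReal_tsum_of_nonneg h0 h1.summable, h1.tsum_eq, ENNReal.ofReal_one]

lemma wm_integral {w : ℕ × ℕ → ℝ} (h0 : ∀ ω, 0 ≤ w ω) [IsProbabilityMeasure (wm w)]
    (F : ℕ × ℕ → ℝ) (C : ℝ) (hF : ∀ ω, |F ω| ≤ C) : ∫ ω, F ω ∂(wm w) = ∑' ω, w ω * F ω := by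
  have hi : Integrable F (wm w) :=
    Integrable.of_bound (measurable_of_countable F).aestronglyMeasurable C
      (by filter_upwards with ω using hF ω)
  rw [integral_countable hi]
  refine tsum_congr (fun ω => ?_)
  rw [measureReal_def, wm_singleton, ENNReal.toReal_ofReal (h0 ω), smul_eq_mul]

/-- geometric average -/
noncomputable def geo (r : ℝ) (f : ℕ → ℝ) : ℝ := ∑' n, (1-r) * r^n * f n

lemma geo_summable {r : ℝ} (h0 : 0 < r) (h1 : r < 1) {f : ℕ → ℝ} {C : ℝ} (hf : ∀ n, |f n| ≤ C) :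
    Summable (fun n => (1-r) * r^n * f n) := by
  have h2 : Summable (fun n => (1-r) * r^n * C) :=
    ((summable_geometric_of_lt_one h0.le h1).mul_left (1-r)).mul_right C
  refine Summable.of_norm_bounded h2 (fun n => ?_)
  rw [norm_mul, Real.norm_eq_abs, Real.norm_eq_abs, abs_of_nonneg
    (mul_nonneg (by linarith) (pow_nonneg h0.le n))]
  exact mul_le_mul_of_nonneg_left (hf n) (mul_nonneg (by linarith) (pow_nonneg h0.le n))

lemma geo_const {r : ℝ} (h0 : 0 < r) (h1 : r < 1) (c : ℝ) : geo r (fun _ => c) = c := by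
  unfold geo
  rw [tsum_mul_right, tsum_mul_left, tsum_geometric_of_lt_one h0.le h1]
  have : 1 - r ≠ 0 := by linarith
  field_simp

lemma geo_bdd {r : ℝ} (h0 : 0 < r) (h1 : r < 1) {f : ℕ → ℝ} {C : ℝ} (hf : ∀ n, |f n| ≤ C) :
    |geo r f| ≤ C := by
  have hs := geo_summable h0 h1 hf
  have hs2 := geo_summable h0 h1 (f := fun _ => C) (C := |C|) (fun _ => le_refl _)
  have e : ∑' n, (1-r) * r^n * C = C := geo_const h0 h1 C
  unfold geo
  rw [← Real.norm_eq_abs]
  refine (norm_tsum_le_tsum_norm hs.norm).trans ?_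
  rw [← e]
  refine hs.norm.tsum_le_tsum (fun n => ?_) hs2
  rw [norm_mul, Real.norm_eq_abs, Real.norm_eq_abs, abs_of_nonneg
    (mul_nonneg (by linarith) (pow_nonneg h0.le n))]
  exact mul_le_mul_of_nonneg_left (hf n) (mul_nonneg (by linarith) (pow_nonneg h0.le n))

lemma geo_split {r : ℝ} (h0 : 0 < r) (h1 : r < 1) {f : ℕ → ℝ} {C : ℝ} (hf : ∀ n, |f n| ≤ C)
    (j : ℕ) : geo r f = ∑ n ∈ Finset.range j, (1-r) * r^n * f n + r^j * geo r (fun n => f (n+j)) := by
  have hs := geo_summable h0 h1 hf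
  unfold geo
  rw [← hs.sum_add_tsum_nat_add j, ← tsum_mul_left]
  congr 1
  refine tsum_congr (fun n => ?_)
  rw [pow_add]; ring

lemma geo_mul_left {r : ℝ} (f : ℕ → ℝ) (c : ℝ) : geo r (fun n => c * f n) = c * geo r f := by
  unfold geo
  rw [← tsum_mul_left]
  exact tsum_congr (fun n => by ring)

noncomputable def w (r s : ℝ) (ω : ℕ × ℕ) : ℝ := ((1-r) * r^ω.1) * ((1-s) * s^ω.2)

lemma w_nn {r s : ℝ} (hr0 : 0 < r) (hr1 : r < 1) (hs0 : 0 < s) (hs1 : s < 1) (ω : ℕ × ℕ) :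
    0 ≤ w r s ω := by
  unfold w
  exact mul_nonneg (mul_nonneg (by linarith) (pow_nonneg hr0.le _))
    (mul_nonneg (by linarith) (pow_nonneg hs0.le _))

lemma w_summable {r s : ℝ} (hr0 : 0 < r) (hr1 : r < 1) (hs0 : 0 < s) (hs1 : s < 1) :
    Summable (w r s) := by
  have h1 := (summable_geometric_of_lt_one hr0.le hr1).mul_left (1-r)
  have h2 := (summable_geometric_of_lt_one hs0.le hs1).mul_left (1-s)
  exact h1.mul_of_nonneg h2 (fun n => mul_nonneg (by linarith) (pow_nonneg hr0.le _))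
    (fun n => mul_nonneg (by linarith) (pow_nonneg hs0.le _))

lemma wF_summable {r s : ℝ} (hr0 : 0 < r) (hr1 : r < 1) (hs0 : 0 < s) (hs1 : s < 1)
    {F : ℕ × ℕ → ℝ} {C : ℝ} (hF : ∀ ω, |F ω| ≤ C) : Summable (fun ω => w r s ω * F ω) := by
  refine Summable.of_norm_bounded ((w_summable hr0 hr1 hs0 hs1).mul_right C) (fun ω => ?_)
  rw [norm_mul, Real.norm_eq_abs, Real.norm_eq_abs, abs_of_nonneg (w_nn hr0 hr1 hs0 hs1 ω)]
  exact mul_le_mul_of_nonneg_left (hF ω) (w_nn hr0 hr1 hs0 hs1 ω)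

lemma w_tsum {r s : ℝ} (hr0 : 0 < r) (hr1 : r < 1) (hs0 : 0 < s) (hs1 : s < 1)
    {F : ℕ × ℕ → ℝ} {C : ℝ} (hF : ∀ ω, |F ω| ≤ C) :
    ∑' ω, w r s ω * F ω = geo r (fun n => geo s (fun m => F (n, m))) := by
  rw [(wF_summable hr0 hr1 hs0 hs1 hF).tsum_prod]
  unfold geo
  refine tsum_congr (fun n => ?_)
  rw [← tsum_mul_left]
  refine tsum_congr (fun m => ?_)
  simp only [w]; ring

lemma w_hasSum {r s : ℝ} (hr0 : 0 < r) (hr1 : r < 1) (hs0 : 0 < s) (hs1 : s < 1) :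
    HasSum (w r s) 1 := by
  have h1 := w_tsum hr0 hr1 hs0 hs1 (F := fun _ => 1) (C := 1) (fun _ => by simp)
  simp only [mul_one] at h1
  rw [geo_const hs0 hs1, geo_const hr0 hr1] at h1
  rw [← h1]
  exact (w_summable hr0 hr1 hs0 hs1).hasSum

/-- The process `0^{N+1} 1^{M+1} 2 2 2 …`. -/
def Yp (i : ℕ) (ω : ℕ × ℕ) : Fin 3 :=
  if i < ω.1 + 1 then 0 else if i < ω.1 + 1 + (ω.2 + 1) then 1 else 2

def Zp (i : ℕ) (ω : ℕ × ℕ) : Fin 3 := if i < ω.2 + 1 then 1 else 2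

def Wp (_ : ℕ) (_ : ℕ × ℕ) : Fin 3 := 2

lemma split {r s : ℝ} (hr0 : 0 < r) (hr1 : r < 1) (hs0 : 0 < s) (hs1 : s < 1) (j : ℕ)
    (f : (Fin j → Fin 3) → ℝ) (hf : ∃ C, ∀ x, |f x| ≤ C) :
    ∃ cA cB cC : ℝ, ∀ (l : ℕ) (g : (Fin l → Fin 3) → ℝ), (∃ C, ∀ x, |g x| ≤ C) →
      ∑' ω, w r s ω * (f (fun i => Yp i ω) * g (fun i => Yp (j + i) ω))
        = cA * (∑' ω, w r s ω * g (fun i => Yp i ω))
          + cB * (∑' ω, w r s ω * g (fun i => Zp i ω))
          + cC * (∑' ω, w r s ω * g (fun i => Wp i ω)) := by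
  obtain ⟨C, hC⟩ := hf
  refine ⟨r^j * f (fun _ => 0),
    ∑ n ∈ Finset.range j, (1-r) * r^n * (s^(j-n-1) * f (fun i => if (i:ℕ) < n+1 then 0 else 1)),
    ∑ n ∈ Finset.range j, (1-r) * r^n * ∑ m ∈ Finset.range (j-n-1), (1-s) * s^m * f (fun i => Yp i (n, m)),
    ?_⟩
  rintro l g ⟨D, hD⟩
  have hFb : ∀ ω : ℕ × ℕ, |f (fun i => Yp i ω) * g (fun i => Yp (j+i) ω)| ≤ C * D := by
    intro ω
    rw [abs_mul]
    exact mul_le_mul (hC _) (hD _) (abs_nonneg _) ((abs_nonneg _).trans (hC fun _ => 0))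
  have hin : ∀ n, ∀ m, |f (fun i => Yp i (n, m)) * g (fun i => Yp (j+i) (n, m))| ≤ C * D :=
    fun n m => hFb (n, m)
  have hgeo : ∀ n, |geo s (fun m => f (fun i => Yp i (n, m)) * g (fun i => Yp (j+i) (n, m)))| ≤ C * D :=
    fun n => geo_bdd hs0 hs1 (hin n)
  rw [w_tsum hr0 hr1 hs0 hs1 hFb, w_tsum hr0 hr1 hs0 hs1 (C := D) (fun ω => hD _),
    w_tsum hr0 hr1 hs0 hs1 (C := D) (fun ω => hD _), w_tsum hr0 hr1 hs0 hs1 (C := D) (fun ω => hD _)]
  have eZ : geo r (fun n => geo s (fun m => g (fun i => Zp i (n, m)))) = geo s (fun m => g (fun i => Zp i (0, m))) := by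
    have : ∀ n, geo s (fun m => g (fun i => Zp i (n, m))) = geo s (fun m => g (fun i => Zp i (0, m))) := by
      intro n; rfl
    simp_rw [this]
    exact geo_const hr0 hr1 _
  have eW : geo r (fun n => geo s (fun m => g (fun i => Wp i (n, m)))) = g (fun _ => 2) := by
    have : ∀ n, geo s (fun m => g (fun i => Wp i (n, m))) = g (fun _ => 2) := by
      intro n
      show geo s (fun _ => g (fun _ => 2)) = _
      exact geo_const hs0 hs1 _
    simp_rw [this]
    exact geo_const hr0 hr1 _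
  rw [eZ, eW, geo_split hr0 hr1 hgeo j]
  have e1 : geo r (fun n => geo s (fun m => f (fun i => Yp i (n+j, m)) * g (fun i => Yp (j+i) (n+j, m))))
      = f (fun _ => 0) * geo r (fun n => geo s (fun m => g (fun i => Yp i (n, m)))) := by
    rw [← geo_mul_left]
    congr 1
    funext n
    rw [← geo_mul_left]
    congr 1
    funext m
    congr 2
    · funext i
      have := i.2
      simp only [Yp]
      rw [if_pos (by omega)]
    · funext i
      simp only [Yp]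
      have h1 : (j + (i:ℕ) < n + j + 1) ↔ ((i:ℕ) < n + 1) := by omega
      have h2 : (j + (i:ℕ) < n + j + 1 + (m+1)) ↔ ((i:ℕ) < n + 1 + (m+1)) := by omega
      simp only [h1, h2]
  rw [e1]
  have e2 : ∀ n ∈ Finset.range j, (1-r) * r^n * geo s (fun m => f (fun i => Yp i (n, m)) * g (fun i => Yp (j+i) (n, m)))
      = (1-r) * r^n * (s^(j-n-1) * f (fun i => if (i:ℕ) < n+1 then 0 else 1)) * geo s (fun m => g (fun i => Zp i (0, m)))
        + (1-r) * r^n * (∑ m ∈ Finset.range (j-n-1), (1-s) * s^m * f (fun i => Yp i (n, m))) * g (fun _ => 2) := by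
    intro n hn
    rw [Finset.mem_range] at hn
    rw [geo_split hs0 hs1 (hin n) (j-n-1)]
    have e3 : geo s (fun m => f (fun i => Yp i (n, m+(j-n-1))) * g (fun i => Yp (j+i) (n, m+(j-n-1))))
        = f (fun i => if (i:ℕ) < n+1 then 0 else 1) * geo s (fun m => g (fun i => Zp i (0, m))) := by
      rw [← geo_mul_left]
      congr 1
      funext m
      congr 2
      · funext i
        have := i.2
        simp only [Yp]
        have h2 : ((i:ℕ) < n + 1 + (m + (j-n-1) + 1)) := by omega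
        rw [if_pos h2]
      · funext i
        simp only [Yp, Zp]
        have h1 : ¬ (j + (i:ℕ) < n + 1) := by omega
        have h2 : (j + (i:ℕ) < n + 1 + (m + (j-n-1) + 1)) ↔ ((i:ℕ) < m + 1) := by omega
        simp only [h1, h2, if_false]
    have e4 : ∑ m ∈ Finset.range (j-n-1), (1-s) * s^m * (f (fun i => Yp i (n, m)) * g (fun i => Yp (j+i) (n, m)))
        = (∑ m ∈ Finset.range (j-n-1), (1-s) * s^m * f (fun i => Yp i (n, m))) * g (fun _ => 2) := by
      rw [Finset.sum_mul]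
      refine Finset.sum_congr rfl (fun m hm => ?_)
      rw [Finset.mem_range] at hm
      have : (fun i : Fin l => Yp (j+i) (n, m)) = fun _ => 2 := by
        funext i
        simp only [Yp]
        rw [if_neg (by omega), if_neg (by omega)]
      rw [this]; ring
    rw [e3, e4]; ring
  rw [Finset.sum_congr rfl e2, Finset.sum_add_distrib, Finset.sum_mul, Finset.sum_mul]
  ring

/-- the weights of the example -/
noncomputable def pw (ω : ℕ × ℕ) : ℝ :=
  63/64 * (1/2)^(ω.1 + ω.2) * ((1/2)^ω.1 - (1/2)^ω.2)^2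

lemma pw_eq (ω : ℕ × ℕ) : pw ω = 9/4 * w (1/8) (1/2) ω - 7/2 * w (1/4) (1/4) ω + 9/4 * w (1/2) (1/8) ω := by
  have h8 : ∀ n : ℕ, (1/8 : ℝ)^n = ((1/2)^n)^3 := by
    intro n; rw [← pow_mul, mul_comm, pow_mul]; norm_num
  have h4 : ∀ n : ℕ, (1/4 : ℝ)^n = ((1/2)^n)^2 := by
    intro n; rw [← pow_mul, mul_comm, pow_mul]; norm_num
  unfold pw w
  rw [h8, h8, h4, h4, pow_add]
  ring

lemma pw_nn (ω : ℕ × ℕ) : 0 ≤ pw ω := by unfold pw; positivity

lemma pw_hasSum : HasSum pw 1 := by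
  have h1 := (w_hasSum (r := 1/8) (s := 1/2) (by norm_num) (by norm_num) (by norm_num) (by norm_num)).mul_left (9/4)
  have h2 := (w_hasSum (r := 1/4) (s := 1/4) (by norm_num) (by norm_num) (by norm_num) (by norm_num)).mul_left (7/2)
  have h3 := (w_hasSum (r := 1/2) (s := 1/8) (by norm_num) (by norm_num) (by norm_num) (by norm_num)).mul_left (9/4)
  have h4 := (h1.sub h2).add h3
  have e : (9/4 * 1 - 7/2 * 1 + 9/4 * 1 : ℝ) = 1 := by norm_num
  rw [e] at h4
  exact h4.congr_fun (fun ω => pw_eq ω)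

end Pool.V1138.RK
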