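import Mathlib

/-! The space `A = ⊕ A_n` of bounded measurable functions, the functional `E(ξη)`, the space `J`
and the quotient `L = A/J`. -/

namespace Pool.V1138.RK

open MeasureTheory Filter

/-- `A = ⊕ A_n`: families `(ξ_n)` of bounded measurable functions `ξ_n : S^n → ℝ` with `ξ_n = 0`
for all large `n`. -/
def Asub (S : Type*) [MeasurableSpace S] : Submodule ℝ (∀ n : ℕ, (Fin n → S) → ℝ) where
  carrier := {ξ | (∀ n, Measurable (ξ n) ∧ ∃ C, ∀ x, |ξ n x| ≤ C) ∧ ∃ N, ∀ n, N ≤ n → ξ n = 0}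
  add_mem' := by
    rintro ξ η ⟨h1, N, hN⟩ ⟨h2, M, hM⟩
    refine ⟨fun n => ⟨(h1 n).1.add (h2 n).1, ?_⟩, max N M, fun n hn => ?_⟩
    · obtain ⟨C, hC⟩ := (h1 n).2
      obtain ⟨D, hD⟩ := (h2 n).2
      exact ⟨C + D, fun x => (abs_add_le _ _).trans (add_le_add (hC x) (hD x))⟩
    · rw [Pi.add_apply, hN n (le_trans (le_max_left _ _) hn), hM n (le_trans (le_max_right _ _) hn),
        add_zero]
  zero_mem' := ⟨fun n => ⟨measurable_zero, 0, fun x => by simp⟩, 0, fun n _ => rfl⟩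
  smul_mem' := by
    rintro c ξ ⟨h1, N, hN⟩
    refine ⟨fun n => ⟨(h1 n).1.const_smul c, ?_⟩, N, fun n hn => ?_⟩
    · obtain ⟨C, hC⟩ := (h1 n).2
      refine ⟨|c| * C, fun x => ?_⟩
      simp only [Pi.smul_apply, smul_eq_mul, abs_mul]
      exact mul_le_mul_of_nonneg_left (hC x) (abs_nonneg c)
    · rw [Pi.smul_apply, hN n hn, smul_zero]

/-- `A` as a real vector space. -/
def A (S : Type*) [MeasurableSpace S] : Type _ := ↥(Asub S)

noncomputable instance instACG (S : Type*) [MeasurableSpace S] : AddCommGroup (A S) :=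
  Submodule.addCommGroup (Asub S)

noncomputable instance instAM (S : Type*) [MeasurableSpace S] : Module ℝ (A S) :=
  Submodule.module (Asub S)

/-- `E(ξη) = ∑_m ∑_n 𝔼[ξ_m(Y_1,…,Y_m) η_n(Y_{m+1},…,Y_{m+n})]`. -/
noncomputable def pairE {S Ω : Type*} [MeasurableSpace S] [MeasurableSpace Ω] (μ : Measure Ω)
    (Y : ℕ → Ω → S) (ξ η : ∀ n : ℕ, (Fin n → S) → ℝ) : ℝ :=
  ∑ᶠ m, ∑ᶠ n, ∫ ω, ξ m (fun i => Y i ω) * η n (fun i => Y (m + i) ω) ∂μ

section
variable {S Ω : Type*} [MeasurableSpace S] [MeasurableSpace Ω]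

lemma A_meas {ξ : ∀ n : ℕ, (Fin n → S) → ℝ} (h : ξ ∈ Asub S) (n : ℕ) : Measurable (ξ n) := (h.1 n).1
lemma A_bdd {ξ : ∀ n : ℕ, (Fin n → S) → ℝ} (h : ξ ∈ Asub S) (n : ℕ) : ∃ C, ∀ x, |ξ n x| ≤ C := (h.1 n).2
lemma A_fin {ξ : ∀ n : ℕ, (Fin n → S) → ℝ} (h : ξ ∈ Asub S) : ∃ N, ∀ n, N ≤ n → ξ n = 0 := h.2

variable (μ : Measure Ω) [IsProbabilityMeasure μ] (Y : ℕ → Ω → S) (hY : ∀ i, Measurable (Y i))

lemma fin_supp {f : ℕ → ℝ} {N : ℕ} (h : ∀ n, N ≤ n → f n = 0) : (Function.support f).Finite := by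
  refine (Set.finite_Iio N).subset (fun n hn => ?_)
  by_contra hc
  exact hn (h n (not_lt.mp hc))

include hY in
lemma pair_int {ξ η : ∀ n : ℕ, (Fin n → S) → ℝ} (h : ξ ∈ Asub S) (h' : η ∈ Asub S) (m n : ℕ) :
    Integrable (fun ω => ξ m (fun i => Y i ω) * η n (fun i => Y (m + i) ω)) μ := by
  obtain ⟨C, hC⟩ := A_bdd h m
  obtain ⟨D, hD⟩ := A_bdd h' n
  refine Integrable.of_bound (C := C * D) ?_ ?_
  · exact (((A_meas h m).comp (measurable_pi_lambda _ (fun i => hY i))).mul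
      ((A_meas h' n).comp (measurable_pi_lambda _ (fun i => hY (m + i))))).aestronglyMeasurable
  · filter_upwards with ω
    rw [Real.norm_eq_abs, abs_mul]
    exact mul_le_mul (hC _) (hD _) (abs_nonneg _) ((abs_nonneg _).trans (hC (fun i => Y i ω)))

lemma inner_supp (ξ : ∀ n : ℕ, (Fin n → S) → ℝ) {η : ∀ n : ℕ, (Fin n → S) → ℝ} (h' : η ∈ Asub S) (m : ℕ) :
    (Function.support (fun n => ∫ ω, ξ m (fun i => Y i ω) * η n (fun i => Y (m + i) ω) ∂μ)).Finite := by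
  obtain ⟨N, hN⟩ := A_fin h'
  refine fin_supp (N := N) (fun n hn => ?_)
  simp [hN n hn]

lemma outer_supp {ξ : ∀ n : ℕ, (Fin n → S) → ℝ} (η : ∀ n : ℕ, (Fin n → S) → ℝ) (h : ξ ∈ Asub S) :
    (Function.support (fun m => ∑ᶠ n, ∫ ω, ξ m (fun i => Y i ω) * η n (fun i => Y (m + i) ω) ∂μ)).Finite := by
  obtain ⟨N, hN⟩ := A_fin h
  refine fin_supp (N := N) (fun n hn => ?_)
  simp [hN n hn]

include hY in
lemma pair_add {ξ η η' : ∀ n : ℕ, (Fin n → S) → ℝ} (h : ξ ∈ Asub S) (h1 : η ∈ Asub S) (h2 : η' ∈ Asub S) :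
    pairE μ Y ξ (η + η') = pairE μ Y ξ η + pairE μ Y ξ η' := by
  unfold pairE
  rw [← finsum_add_distrib (outer_supp μ Y η h) (outer_supp μ Y η' h)]
  refine finsum_congr (fun m => ?_)
  rw [← finsum_add_distrib (inner_supp μ Y ξ h1 m) (inner_supp μ Y ξ h2 m)]
  refine finsum_congr (fun n => ?_)
  rw [← integral_add (pair_int μ Y hY h h1 m n) (pair_int μ Y hY h h2 m n)]
  refine integral_congr_ae ?_
  filter_upwards with ω
  simp only [Pi.add_apply]; ring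

lemma pair_smul (ξ η : ∀ n : ℕ, (Fin n → S) → ℝ) (c : ℝ) :
    pairE μ Y ξ (c • η) = c * pairE μ Y ξ η := by
  unfold pairE
  rw [mul_finsum]
  refine finsum_congr (fun m => ?_)
  rw [mul_finsum]
  refine finsum_congr (fun n => ?_)
  rw [← integral_const_mul]
  refine integral_congr_ae ?_
  filter_upwards with ω
  simp only [Pi.smul_apply, smul_eq_mul]; ring

end

/-- `E(ξη) = 0` for all `ξ ∈ A`. -/
def InJ {S Ω : Type*} [MeasurableSpace S] [MeasurableSpace Ω] (μ : Measure Ω)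
    (Y : ℕ → Ω → S) (η : A S) : Prop := ∀ ξ : A S, pairE μ Y ξ.1 η.1 = 0

/-- `J = {η : E(ξη) = 0 for all ξ}`. -/
noncomputable def J {S Ω : Type*} [MeasurableSpace S] [MeasurableSpace Ω] (μ : Measure Ω)
    [IsProbabilityMeasure μ] (Y : ℕ → Ω → S) (hY : ∀ i, Measurable (Y i)) : Submodule ℝ (A S) where
  carrier := {η | InJ μ Y η}
  add_mem' := fun {η η'} h h' ξ => by
    have := pair_add μ Y hY ξ.2 η.2 η'.2
    rw [h ξ, h' ξ, add_zero] at this
    exact this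
  zero_mem' := fun ξ => by
    have h0 : ∀ n, (0 : A S).1 n = 0 := fun n => rfl
    simp [pairE, h0]
  smul_mem' := fun c η h ξ => by
    have := pair_smul μ Y ξ.1 η.1 c
    rw [h ξ, mul_zero] at this
    exact this

/-- `dim L < ∞`, where `L = A/J`. -/
def FiniteDimL {S Ω : Type*} [MeasurableSpace S] [MeasurableSpace Ω] (μ : Measure Ω)
    [IsProbabilityMeasure μ] (Y : ℕ → Ω → S) (hY : ∀ i, Measurable (Y i)) : Prop :=
  FiniteDimensional ℝ (A S ⧸ J μ Y hY)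

section
variable {S Ω : Type*} [MeasurableSpace S] [MeasurableSpace Ω]
variable (μ : Measure Ω) [IsProbabilityMeasure μ] (Y : ℕ → Ω → S) (hY : ∀ i, Measurable (Y i))

/-- the linear functional `η ↦ ∑_n 𝔼 η_n(Y_1,…,Y_n)` -/
noncomputable def expect : A S →ₗ[ℝ] ℝ where
  toFun η := ∑ᶠ n, ∫ ω, η.1 n (fun i => Y i ω) ∂μ
  map_add' η η' := by
    obtain ⟨N, hN⟩ := A_fin η.2
    obtain ⟨N', hN'⟩ := A_fin η'.2
    have hint : ∀ (ξ : A S) n, Integrable (fun ω => ξ.1 n (fun i => Y i ω)) μ := by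
      intro ξ n
      obtain ⟨C, hC⟩ := A_bdd ξ.2 n
      exact Integrable.of_bound (((A_meas ξ.2 n).comp (measurable_pi_lambda _ (fun i => hY i)))).aestronglyMeasurable C
        (by filter_upwards with ω using hC _)
    rw [← finsum_add_distrib (fin_supp (N := N) (fun n hn => by simp [hN n hn]))
      (fin_supp (N := N') (fun n hn => by simp [hN' n hn]))]
    refine finsum_congr (fun n => ?_)
    rw [← integral_add (hint η n) (hint η' n)]
    rfl
  map_smul' c η := by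
    simp only [RingHom.id_apply, smul_eq_mul]
    rw [mul_finsum]
    refine finsum_congr (fun n => ?_)
    rw [← integral_const_mul]
    rfl

/-- criterion for finite dimension -/
lemma finite_L {K : Type*} [Fintype K] (νs : K → Measure Ω) [∀ k, IsProbabilityMeasure (νs k)]
    (V : K → ℕ → Ω → S) (hV : ∀ k i, Measurable (V k i))
    (h : ∀ m (f : (Fin m → S) → ℝ), (∃ C, ∀ x, |f x| ≤ C) → ∃ c : K → ℝ,
      ∀ n (g : (Fin n → S) → ℝ), (∃ C, ∀ x, |g x| ≤ C) →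
        ∫ ω, f (fun i => Y i ω) * g (fun i => Y (m + i) ω) ∂μ
          = ∑ k, c k * ∫ ω, g (fun i => V k i ω) ∂(νs k)) :
    FiniteDimensional ℝ (A S ⧸ J μ Y hY) := by
  classical
  set T : A S →ₗ[ℝ] (K → ℝ) := LinearMap.pi (fun k => expect (νs k) (V k) (hV k)) with hT
  have hker : LinearMap.ker T ≤ J μ Y hY := by
    intro η hη ξ
    rw [LinearMap.mem_ker] at hη
    have hk : ∀ k, ∑ᶠ n, ∫ ω, η.1 n (fun i => V k i ω) ∂(νs k) = 0 := fun k => congrFun hη k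
    unfold pairE
    have : ∀ m, ∑ᶠ n, ∫ ω, ξ.1 m (fun i => Y i ω) * η.1 n (fun i => Y (m + i) ω) ∂μ = 0 := by
      intro m
      obtain ⟨c, hc⟩ := h m (ξ.1 m) (A_bdd ξ.2 m)
      obtain ⟨N, hN⟩ := A_fin η.2
      have e1 : ∀ n, ∫ ω, ξ.1 m (fun i => Y i ω) * η.1 n (fun i => Y (m + i) ω) ∂μ
          = ∑ k, c k * ∫ ω, η.1 n (fun i => V k i ω) ∂(νs k) := fun n => hc n _ (A_bdd η.2 n)
      simp_rw [e1]
      rw [finsum_sum_comm]
      · refine Finset.sum_eq_zero (fun k _ => ?_)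
        rw [← mul_finsum, hk k, mul_zero]
      · intro k _
        exact fin_supp (N := N) (fun n hn => by simp [hN n hn])
    simp_rw [this]
    exact finsum_zero
  have h1 : FiniteDimensional ℝ (A S ⧸ LinearMap.ker T) :=
    (LinearMap.quotKerEquivRange T).symm.finiteDimensional
  exact Module.Finite.of_surjective (Submodule.factor hker) (Submodule.factor_surjective hker)

end

end Pool.V1138.RK
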