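import Mathlib

/-! Densities of signed measures and of kernels of finite rank. -/

namespace Pool.V1138.RK

open MeasureTheory Filter ProbabilityTheory
open scoped ENNReal

/-- common reference measure and densities of finitely many signed measures -/
lemma common_density {X : Type*} [MeasurableSpace X] {r : ℕ} (b : Fin r → SignedMeasure X) :
    ∃ (ν : Measure X) (_ : IsFiniteMeasure ν) (g : Fin r → X → ℝ),
      (∀ j, Measurable (g j)) ∧ (∀ j, Integrable (g j) ν) ∧
      ∀ j B, MeasurableSet B → b j B = ∫ x in B, g j x ∂ν := by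
  classical
  set ν : Measure X := ∑ j, (b j).totalVariation with hν
  haveI : ∀ j, IsFiniteMeasure ((b j).totalVariation) := fun j => by
    unfold SignedMeasure.totalVariation; infer_instance
  haveI hfin : IsFiniteMeasure ν := by rw [hν]; infer_instance
  refine ⟨ν, hfin, fun j => (b j).rnDeriv ν, fun j => SignedMeasure.measurable_rnDeriv _ _,
    fun j => SignedMeasure.integrable_rnDeriv _ _, fun j B hB => ?_⟩
  have hac : (b j) ≪ᵥ ν.toENNRealVectorMeasure := by
    rw [SignedMeasure.absolutelyContinuous_ennreal_iff,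
      VectorMeasure.ennrealToMeasure_toENNRealVectorMeasure]
    refine Measure.AbsolutelyContinuous.mk (fun s _ hs => ?_)
    rw [hν, Measure.finsetSum_apply, Finset.sum_eq_zero_iff] at hs
    exact hs j (Finset.mem_univ j)
  have h1 := SignedMeasure.withDensityᵥ_rnDeriv_eq (b j) ν hac
  conv_lhs => rw [← h1]
  exact withDensityᵥ_apply (SignedMeasure.integrable_rnDeriv _ _) hB

/-- a finite measure whose values are integrals of `g` -/
lemma density_eq {X : Type*} [MeasurableSpace X] {ν κ : Measure X} [IsFiniteMeasure ν]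
    [IsFiniteMeasure κ] {g : X → ℝ} (hgm : Measurable g) (hg : Integrable g ν)
    (h : ∀ B, MeasurableSet B → (κ B).toReal = ∫ x in B, g x ∂ν) :
    (∀ᵐ x ∂ν, 0 ≤ g x) ∧ κ = ν.withDensity (fun x => ENNReal.ofReal (g x)) := by
  have h0 : 0 ≤ᵐ[ν] g := ae_nonneg_of_forall_setIntegral_nonneg hg
    (fun s hs _ => by rw [← h s hs]; exact ENNReal.toReal_nonneg)
  refine ⟨h0, Measure.ext (fun B hB => ?_)⟩
  rw [withDensity_apply _ hB, ← ofReal_integral_eq_lintegral_ofReal hg.integrableOn
    (ae_restrict_of_ae h0), ← h B hB, ENNReal.ofReal_toReal (measure_ne_top κ B)]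

lemma density_lintegral {X : Type*} [MeasurableSpace X] {ν κ : Measure X} [IsFiniteMeasure ν]
    [IsFiniteMeasure κ] {g : X → ℝ} (hgm : Measurable g) (hg : Integrable g ν)
    (h : ∀ B, MeasurableSet B → (κ B).toReal = ∫ x in B, g x ∂ν)
    {H : X → ℝ≥0∞} (hH : Measurable H) (hH1 : ∀ x, H x ≤ 1) (B : Set X) (hB : MeasurableSet B) :
    (∫⁻ x in B, H x ∂κ).toReal = ∫ x in B, (H x).toReal * g x ∂ν := by
  obtain ⟨h0, hκ⟩ := density_eq hgm hg h
  rw [hκ, restrict_withDensity hB,
    lintegral_withDensity_eq_lintegral_mul _ (by fun_prop) hH]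
  rw [← integral_toReal (by fun_prop)]
  · refine integral_congr_ae ?_
    filter_upwards [ae_restrict_of_ae h0] with x hx
    simp only [Pi.mul_apply, ENNReal.toReal_mul, ENNReal.toReal_ofReal hx]
    ring
  · filter_upwards with x
    simp only [Pi.mul_apply]
    exact ENNReal.mul_lt_top ENNReal.ofReal_lt_top ((hH1 x).trans_lt ENNReal.one_lt_top)

/-- the coefficient functions of a finite-rank kernel are bounded -/
lemma coeff_bdd {X : Type*} [MeasurableSpace X] {r : ℕ} (P : Kernel X X) [IsMarkovKernel P]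
    (a : Fin r → X → ℝ) (b : Fin r → SignedMeasure X)
    (hP : ∀ x B, MeasurableSet B → (P x B).toReal = ∑ j, a j x * b j B)
    (hb : LinearIndependent ℝ b) (j : Fin r) : ∃ C, ∀ x, |a j x| ≤ C := by
  classical
  set V : Set (Fin r → ℝ) := {v | ∃ B, MeasurableSet B ∧ v = fun j => b j B} with hV
  have htop : Submodule.span ℝ V = ⊤ := by
    by_contra hne
    obtain ⟨φ, hφ0, hφ⟩ := Submodule.exists_le_ker_of_lt_top _ (lt_top_iff_ne_top.mpr hne)
    have h1 : ∑ j, φ (Pi.single j 1) • b j = 0 := by
      ext B hB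
      have h2 : (fun j => b j B) ∈ Submodule.span ℝ V := Submodule.subset_span ⟨B, hB, rfl⟩
      have h3 := LinearMap.mem_ker.mp (hφ h2)
      have h4 : φ (fun j => b j B) = ∑ j, φ (Pi.single j 1) * b j B := by
        conv_lhs => rw [LinearMap.pi_apply_eq_sum_univ φ]
        refine Finset.sum_congr rfl (fun k _ => ?_)
        rw [smul_eq_mul, mul_comm]
        congr 2
        funext i
        simp [Pi.single_apply, eq_comm]
      rw [h4] at h3
      simp only [VectorMeasure.coe_zero, Pi.zero_apply]
      rw [← h3]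
      have : (⇑(∑ j, φ (Pi.single j 1) • b j) : Set X → ℝ) B = ∑ j, (φ (Pi.single j 1) • b j) B := by
        rw [VectorMeasure.coe_finsetSum, Finset.sum_apply]
      rw [this]
      rfl
    have h2 := (Fintype.linearIndependent_iff.mp hb) _ h1
    apply hφ0
    apply LinearMap.pi_ext'
    intro i
    ext
    simpa using h2 i
  have hind : ∀ v ∈ Submodule.span ℝ V, ∃ C, ∀ x, |∑ j, a j x * v j| ≤ C := by
    intro v hv
    induction hv using Submodule.span_induction with
    | mem v hv =>
      obtain ⟨B, hB, rfl⟩ := hv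
      refine ⟨1, fun x => ?_⟩
      rw [← hP x B hB, abs_of_nonneg ENNReal.toReal_nonneg]
      exact ENNReal.toReal_le_of_le_ofReal zero_le_one (by simpa using prob_le_one)
    | zero => exact ⟨0, fun x => by simp⟩
    | add u v _ _ hu hv =>
      obtain ⟨C, hC⟩ := hu
      obtain ⟨D, hD⟩ := hv
      refine ⟨C + D, fun x => ?_⟩
      simp only [Pi.add_apply, mul_add, Finset.sum_add_distrib]
      exact (abs_add_le _ _).trans (add_le_add (hC x) (hD x))
    | smul t v _ hv =>
      obtain ⟨C, hC⟩ := hv
      refine ⟨|t| * C, fun x => ?_⟩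
      have : ∑ j, a j x * (t • v) j = t * ∑ j, a j x * v j := by
        rw [Finset.mul_sum]; refine Finset.sum_congr rfl (fun k _ => ?_)
        simp only [Pi.smul_apply, smul_eq_mul]; ring
      rw [this, abs_mul]
      exact mul_le_mul_of_nonneg_left (hC x) (abs_nonneg _)
  obtain ⟨C, hC⟩ := hind (Pi.single j 1) (by rw [htop]; trivial)
  refine ⟨C, fun x => ?_⟩
  have := hC x
  simpa [Pi.single_apply] using this

end Pool.V1138.RK
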