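import Mathlib

/-! Essential span of a vector valued function and a support (pigeonhole) argument. -/

namespace Pool.V1138.RK

open MeasureTheory Filter

/-- Finitely many points detect whether a linear functional of `f` vanishes a.e. -/
lemma ess_span {X ι : Type*} [MeasurableSpace X] [Finite ι] (ν : Measure X) (f : X → (ι → ℝ))
    (G : Set X) (hG : ∀ᵐ x ∂ν, x ∈ G) :
    ∃ t : Set X, t.Finite ∧ t ⊆ G ∧ ∀ φ : (ι → ℝ) →ₗ[ℝ] ℝ,
      ((∀ᵐ x ∂ν, φ (f x) = 0) ↔ ∀ x ∈ t, φ (f x) = 0) := by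
  classical
  obtain ⟨W, hW, hmin⟩ := IsArtinian.set_has_minimal (R := ℝ) (M := ι → ℝ)
    {W : Submodule ℝ (ι → ℝ) | ∀ᵐ x ∂ν, f x ∈ W} ⟨⊤, by simp⟩
  simp only [Set.mem_ofPred_eq] at hW hmin
  set G' : Set X := {x | x ∈ G ∧ f x ∈ W} with hG'
  have hG'ae : ∀ᵐ x ∂ν, x ∈ G' := by
    filter_upwards [hG, hW] with x h1 h2 using ⟨h1, h2⟩
  have hle : Submodule.span ℝ (f '' G') ≤ W := by
    rw [Submodule.span_le]
    rintro _ ⟨x, hx, rfl⟩
    exact hx.2
  have hspan : Submodule.span ℝ (f '' G') = W := by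
    by_contra hne
    refine hmin _ ?_ (lt_of_le_of_ne hle hne)
    filter_upwards [hG'ae] with x hx
    exact Submodule.subset_span ⟨x, hx, rfl⟩
  have hfg : (Submodule.span ℝ (f '' G')).FG := IsNoetherian.noetherian _
  obtain ⟨s', hs', hs'2⟩ := (Submodule.fg_span_iff_fg_span_finset_subset (f '' G')).1 hfg
  have hch : ∀ y ∈ s', ∃ x ∈ G', f x = y := fun y hy => hs' hy
  choose p hp1 hp2 using hch
  refine ⟨Set.range (fun y : s' => p y.1 y.2), Set.finite_range _, ?_, ?_⟩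
  · rintro _ ⟨⟨y, hy⟩, rfl⟩
    exact (hp1 y hy).1
  · intro φ
    constructor
    · intro h
      have h1 : W ≤ LinearMap.ker φ := by
        by_contra hcon
        have hlt : W ⊓ LinearMap.ker φ < W := by
          refine lt_of_le_of_ne inf_le_left (fun heq => hcon ?_)
          rw [← heq]; exact inf_le_right
        refine hmin _ ?_ hlt
        filter_upwards [hW, h] with x h2 h3
        exact ⟨h2, LinearMap.mem_ker.mpr h3⟩
      rintro _ ⟨⟨y, hy⟩, rfl⟩
      exact LinearMap.mem_ker.mp (h1 (hp1 y hy).2)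
    · intro h
      have h1 : W ≤ LinearMap.ker φ := by
        rw [← hspan, hs'2, Submodule.span_le]
        intro y hy
        have := h (p y hy) ⟨⟨y, hy⟩, rfl⟩
        rw [hp2 y hy] at this
        exact LinearMap.mem_ker.mpr this
      filter_upwards [hW] with x hx
      exact LinearMap.mem_ker.mp (h1 hx)

/-- support argument -/
lemma no_finite_support {X : Type*} (t : Set X) (ht : t.Finite) (B Q : ℕ → X → ℝ)
    (hB : ∀ n, ∀ x ∈ t, 0 ≤ B n x) (hQ : ∀ n, ∀ x ∈ t, 0 ≤ Q n x)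
    (h : ∀ n m, (∀ x ∈ t, B n x * Q m x = 0) ↔ n + 1 = m) : False := by
  classical
  have hfin : (Set.univ : Set (Set t)).Finite := by
    have := ht.to_subtype
    exact Set.toFinite _
  obtain ⟨n, n', hne, heq⟩ : ∃ n n' : ℕ, n ≠ n' ∧
      ({x : t | 0 < B n x.1}) = ({x : t | 0 < B n' x.1}) := by
    have := ht.to_subtype
    have hf : ¬ Function.Injective (fun n : ℕ => ({x : t | 0 < B n x.1} : Set t)) :=
      not_injective_infinite_finite _
    simp only [Function.Injective, not_forall] at hf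
    obtain ⟨n, n', h1, h2⟩ := hf
    exact ⟨n, n', h2, h1⟩
  have h1 : ¬ (∀ x ∈ t, B n x * Q (n'+1) x = 0) := by
    rw [h]; omega
  push Not at h1
  obtain ⟨x, hx, hne0⟩ := h1
  have h2 : 0 < B n x := lt_of_le_of_ne (hB n x hx) (fun h0 => hne0 (by rw [← h0]; ring))
  have h3 : 0 < Q (n'+1) x := lt_of_le_of_ne (hQ _ x hx) (fun h0 => hne0 (by rw [← h0]; ring))
  have h4 : (⟨x, hx⟩ : t) ∈ ({x : t | 0 < B n x.1} : Set t) := h2
  rw [heq] at h4
  have h5 : 0 < B n' x := h4
  have h6 := (h n' (n'+1)).2 rfl x hx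
  have h7 := mul_pos h5 h3
  linarith

end Pool.V1138.RK
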