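import Pool.Agent.V1138.RK.Dens
import Pool.Agent.V1138.RK.Ess

/-! Markov processes and words: functions of finite-rank Markov processes have
word probabilities with finite support structure. -/

namespace Pool.V1138.RK

open MeasureTheory Filter ProbabilityTheory
open scoped ENNReal

/-- `X` is a time-homogeneous Markov process (w.r.t. its own history) with transition function `P`;
the initial law is the law of `X 0`. -/
def IsMarkovProcess {S' Ω' : Type*} [MeasurableSpace S'] [MeasurableSpace Ω'] (μ' : Measure Ω')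
    (X : ℕ → Ω' → S') (P : Kernel S' S') : Prop :=
  (∀ n, Measurable (X n)) ∧
  ∀ (n : ℕ) (A : Set (Fin (n+1) → S')) (B : Set S'), MeasurableSet A → MeasurableSet B →
    μ' {ω | (fun i : Fin (n+1) => X i ω) ∈ A ∧ X (n+1) ω ∈ B}
      = ∫⁻ ω in {ω | (fun i : Fin (n+1) => X i ω) ∈ A}, P (X n ω) B ∂μ'

section
variable {S' Ω' : Type*} [MeasurableSpace S'] [MeasurableSpace Ω'] {μ' : Measure Ω'}
  [IsProbabilityMeasure μ'] {X : ℕ → Ω' → S'} {P : Kernel S' S'} [IsMarkovKernel P]

/-- one restricted step -/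
noncomputable def step (P : Kernel S' S') (A : Set S') (κ : Measure S') : Measure S' :=
  (κ.restrict A).bind P

lemma step_apply (A : Set S') (κ : Measure S') {B : Set S'} (hB : MeasurableSet B) :
    step P A κ B = ∫⁻ x in A, P x B ∂κ :=
  Measure.bind_apply hB P.measurable.aemeasurable

lemma step_lintegral (A : Set S') (κ : Measure S') {h : S' → ℝ≥0∞} (hh : Measurable h) :
    ∫⁻ x, h x ∂(step P A κ) = ∫⁻ x in A, ∫⁻ y, h y ∂(P x) ∂κ :=
  Measure.lintegral_bind P.measurable.aemeasurable hh.aemeasurable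

lemma step_le (A : Set S') (κ : Measure S') : step P A κ Set.univ ≤ κ Set.univ := by
  rw [step_apply _ _ MeasurableSet.univ]
  simp only [measure_univ, lintegral_const, one_mul]
  rw [Measure.restrict_apply_univ]
  exact measure_mono (Set.subset_univ _)

lemma step_fin (A : Set S') (κ : Measure S') [IsFiniteMeasure κ] : IsFiniteMeasure (step P A κ) :=
  ⟨(step_le A κ).trans_lt (measure_lt_top κ _)⟩

noncomputable def km (μ' : Measure Ω') (X : ℕ → Ω' → S') (P : Kernel S' S') (A : ℕ → Set S') :
    ℕ → Measure S'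
  | 0 => μ'.map (X 0)
  | n+1 => step P (A n) (km μ' X P A n)

lemma km_eq (hX : IsMarkovProcess μ' X P) {A : ℕ → Set S'} (hA : ∀ i, MeasurableSet (A i)) (n : ℕ) :
    km μ' X P A n = (μ'.restrict {ω | ∀ i < n, X i ω ∈ A i}).map (X n) := by
  induction n with
  | zero => simp [km]
  | succ n ih =>
    have hEn : MeasurableSet {ω | ∀ i < n, X i ω ∈ A i} := by
      have : {ω | ∀ i < n, X i ω ∈ A i} = ⋂ i ∈ Finset.range n, (X i) ⁻¹' (A i) := by
        ext ω; simp
      rw [this]
      exact Finset.measurableSet_biInter _ (fun i _ => hX.1 i (hA i))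
    ext B hB
    set AA : Set (Fin (n+1) → S') := {x | ∀ i : Fin (n+1), x i ∈ A i} with hAA
    have hAAm : MeasurableSet AA := by
      have : AA = ⋂ i, (fun x : Fin (n+1) → S' => x i) ⁻¹' (A i) := by ext x; simp [hAA]
      rw [this]
      exact MeasurableSet.iInter (fun i => measurable_pi_apply i (hA i))
    have e1 : {ω | (fun i : Fin (n+1) => X i ω) ∈ AA} = {ω | ∀ i < n+1, X i ω ∈ A i} := by
      ext ω
      simp only [hAA, Set.mem_ofPred_eq]
      constructor
      · intro h i hi; exact h ⟨i, hi⟩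
      · intro h i; exact h i.1 i.2
    have e2 : {ω | ∀ i < n+1, X i ω ∈ A i} = {ω | ∀ i < n, X i ω ∈ A i} ∩ (X n) ⁻¹' (A n) := by
      ext ω
      simp only [Set.mem_ofPred_eq, Set.mem_inter_iff, Set.mem_preimage]
      constructor
      · intro h; exact ⟨fun i hi => h i (by omega), h n (by omega)⟩
      · rintro ⟨h1, h2⟩ i hi
        rcases Nat.lt_succ_iff_lt_or_eq.mp hi with h3 | rfl
        · exact h1 i h3
        · exact h2
    have h1 := hX.2 n AA B hAAm hB
    rw [Measure.map_apply (hX.1 (n+1)) hB, Measure.restrict_apply (hX.1 (n+1) hB)]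
    have e3 : X (n+1) ⁻¹' B ∩ {ω | ∀ i < n+1, X i ω ∈ A i}
        = {ω | (fun i : Fin (n+1) => X i ω) ∈ AA ∧ X (n+1) ω ∈ B} := by
      ext ω
      have := congrArg (fun s => ω ∈ s) e1
      simp only [Set.mem_ofPred_eq, eq_iff_iff] at this
      simp only [Set.mem_inter_iff, Set.mem_preimage, Set.mem_ofPred_eq]
      rw [this]; tauto
    rw [e3, h1, e1, e2]
    show step P (A n) (km μ' X P A n) B = _
    rw [step_apply _ _ hB, ih, setLIntegral_map (hA n) (P.measurable_coe hB) (hX.1 n),
      Measure.restrict_restrict (hX.1 n (hA n)), Set.inter_comm]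

lemma km_congr {A A' : ℕ → Set S'} (n : ℕ) (h : ∀ i < n, A i = A' i) :
    km μ' X P A n = km μ' X P A' n := by
  induction n with
  | zero => rfl
  | succ n ih =>
    show step P (A n) (km μ' X P A n) = step P (A' n) (km μ' X P A' n)
    rw [ih (fun i hi => h i (by omega)), h n (by omega)]

/-- dual functions -/
noncomputable def H (P : Kernel S' S') (B C : Set S') : ℕ → S' → ℝ≥0∞
  | 0 => C.indicator 1
  | m+1 => B.indicator (fun x => ∫⁻ y, H P B C m y ∂(P x))

lemma H_meas {B C : Set S'} (hB : MeasurableSet B) (hC : MeasurableSet C) (m : ℕ) :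
    Measurable (H P B C m) := by
  induction m with
  | zero => exact measurable_one.indicator hC
  | succ m ih => exact (Measurable.lintegral_kernel ih).indicator hB

lemma H_le (B C : Set S') (m : ℕ) (x : S') : H P B C m x ≤ 1 := by
  induction m generalizing x with
  | zero =>
    show C.indicator 1 x ≤ 1
    exact Set.indicator_le_self' (fun _ _ => zero_le) x
  | succ m ih =>
    show B.indicator (fun x => ∫⁻ y, H P B C m y ∂(P x)) x ≤ 1
    refine (Set.indicator_le_self' (fun _ _ => zero_le) x).trans ?_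
    calc ∫⁻ y, H P B C m y ∂(P x) ≤ ∫⁻ y, 1 ∂(P x) := lintegral_mono (fun y => ih y)
      _ = 1 := by simp

lemma dual {B C : Set S'} (hB : MeasurableSet B) (hC : MeasurableSet C) (m : ℕ) (κ : Measure S') :
    ((step P B)^[m] κ) C = ∫⁻ x, H P B C m x ∂κ := by
  induction m generalizing κ with
  | zero =>
    simp only [Function.iterate_zero, id_eq]
    show κ C = ∫⁻ x, C.indicator 1 x ∂κ
    rw [lintegral_indicator_one hC]
  | succ m ih =>
    rw [Function.iterate_succ, Function.comp_apply, ih, step_lintegral _ _ (H_meas hB hC m)]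
    show _ = ∫⁻ x, B.indicator (fun x => ∫⁻ y, H P B C m y ∂(P x)) x ∂κ
    rw [lintegral_indicator hB]

/-- probability of the word `a^{n+2} b^{m+1} c` -/
lemma word_prob (hX : IsMarkovProcess μ' X P) {Fa Fb Fc : Set S'} (ha : MeasurableSet Fa)
    (hb : MeasurableSet Fb) (hc : MeasurableSet Fc) (n m : ℕ) :
    μ' {ω | (∀ i < n+2+(m+1), X i ω ∈ (if i < n+2 then Fa else Fb)) ∧ X (n+2+(m+1)) ω ∈ Fc}
      = ∫⁻ x in Fa, (∫⁻ y, H P Fb Fc (m+1) y ∂(P x)) ∂((step P Fa)^[n+1] (μ'.map (X 0))) := by
  set A : ℕ → Set S' := fun i => if i < n+2 then Fa else Fb with hA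
  have hAm : ∀ i, MeasurableSet (A i) := by
    intro i; simp only [hA]; split_ifs <;> assumption
  have h1 : ∀ k ≤ n+2, km μ' X P A k = (step P Fa)^[k] (μ'.map (X 0)) := by
    intro k hk
    induction k with
    | zero => rfl
    | succ k ih =>
      show step P (A k) (km μ' X P A k) = _
      rw [ih (by omega), Function.iterate_succ_apply']
      congr 1
      simp only [hA]; rw [if_pos (by omega)]
  have h2 : ∀ k, km μ' X P A (n+2+k) = (step P Fb)^[k] ((step P Fa)^[n+2] (μ'.map (X 0))) := by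
    intro k
    induction k with
    | zero => simpa using h1 (n+2) le_rfl
    | succ k ih =>
      show step P (A (n+2+k)) (km μ' X P A (n+2+k)) = _
      rw [ih, Function.iterate_succ_apply' (step P Fb) k]
      congr 1
      simp only [hA]; rw [if_neg (by omega)]
  have h3 := congrArg (fun κ => κ Fc) (km_eq hX hAm (n+2+(m+1)))
  rw [Measure.map_apply (hX.1 _) hc, Measure.restrict_apply (hX.1 _ hc), h2, dual hb hc] at h3
  have e : X (n+2+(m+1)) ⁻¹' Fc ∩ {ω | ∀ i < n+2+(m+1), X i ω ∈ A i}
      = {ω | (∀ i < n+2+(m+1), X i ω ∈ A i) ∧ X (n+2+(m+1)) ω ∈ Fc} := by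
    ext ω; simp only [Set.mem_inter_iff, Set.mem_preimage, Set.mem_ofPred_eq]; tauto
  rw [e] at h3
  rw [← h3, Function.iterate_succ_apply', step_lintegral _ _ (H_meas hb hc _)]

lemma iter_fin (Fa : Set S') (n : ℕ) (κ : Measure S') [IsFiniteMeasure κ] :
    IsFiniteMeasure ((step P Fa)^[n] κ) := by
  induction n with
  | zero => simpa
  | succ n ih =>
    rw [Function.iterate_succ_apply']
    exact step_fin _ _

/-- Main obstruction. -/
theorem no_rep (hX : IsMarkovProcess μ' X P) {r : ℕ} (a : Fin r → S' → ℝ)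
    (b : Fin r → SignedMeasure S') (ham : ∀ j, Measurable (a j))
    (hP : ∀ x B, MeasurableSet B → (P x B).toReal = ∑ j, a j x * b j B)
    (hb : LinearIndependent ℝ b) {Fa Fb Fc : Set S'} (hFa : MeasurableSet Fa)
    (hFb : MeasurableSet Fb) (hFc : MeasurableSet Fc)
    (h : ∀ n m, μ' {ω | (∀ i < n+2+(m+1), X i ω ∈ (if i < n+2 then Fa else Fb)) ∧
      X (n+2+(m+1)) ω ∈ Fc} = 0 ↔ n + 1 = m) : False := by
  classical
  obtain ⟨ν, hνfin, g, hgm, hgi, hg⟩ := common_density b
  have hbd := fun j => coeff_bdd P a b hP hb j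
  haveI : IsFiniteMeasure (μ'.map (X 0)) := inferInstance
  -- transition probabilities
  have hP' : ∀ x B, MeasurableSet B → (P x B).toReal = ∫ y in B, (∑ j, a j x * g j y) ∂ν := by
    intro x B hB
    rw [hP x B hB, integral_finsetSum _ (fun j _ => ((hgi j).integrableOn.const_mul _))]
    refine Finset.sum_congr rfl (fun j _ => ?_)
    rw [integral_const_mul, hg j B hB]
  -- the functions q
  set q : ℕ → S' → ℝ := fun m x => (∫⁻ y, H P Fb Fc (m+1) y ∂(P x)).toReal with hq
  set β : ℕ → Fin r → ℝ := fun m j => ∫ y, (H P Fb Fc (m+1) y).toReal * g j y ∂ν with hβ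
  have hHm : ∀ m, Measurable (H P Fb Fc (m+1)) := fun m => H_meas hFb hFc _
  have hHint : ∀ m j, Integrable (fun y => (H P Fb Fc (m+1) y).toReal * g j y) ν := by
    intro m j
    refine (hgi j).bdd_mul (c := 1) (hHm m).ennreal_toReal.aestronglyMeasurable ?_
    filter_upwards with y
    rw [Real.norm_eq_abs, abs_of_nonneg ENNReal.toReal_nonneg]
    exact ENNReal.toReal_le_of_le_ofReal zero_le_one (by simpa using H_le _ _ _ _)
  have hqβ : ∀ m x, q m x = ∑ j, a j x * β m j := by
    intro m x
    have h1 := density_lintegral (κ := P x) (g := fun y => ∑ j, a j x * g j y)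
      (by fun_prop) (integrable_finsetSum _ (fun j _ => (hgi j).const_mul _)) (hP' x) (hHm m)
      (fun y => H_le _ _ _ _) Set.univ MeasurableSet.univ
    rw [Measure.restrict_univ, Measure.restrict_univ] at h1
    simp only [hq]
    rw [h1]
    have : ∀ y, (H P Fb Fc (m+1) y).toReal * ∑ j, a j x * g j y
        = ∑ j, a j x * ((H P Fb Fc (m+1) y).toReal * g j y) := by
      intro y; rw [Finset.mul_sum]; exact Finset.sum_congr rfl (fun j _ => by ring)
    simp_rw [this]
    rw [integral_finsetSum _ (fun j _ => (hHint m j).const_mul _)]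
    exact Finset.sum_congr rfl (fun j _ => by rw [integral_const_mul])
  have hq0 : ∀ m x, 0 ≤ q m x := fun m x => ENNReal.toReal_nonneg
  have hHle : ∀ m x, (∫⁻ y, H P Fb Fc (m+1) y ∂(P x)) ≤ 1 := by
    intro m x
    calc ∫⁻ y, H P Fb Fc (m+1) y ∂(P x) ≤ ∫⁻ y, 1 ∂(P x) := lintegral_mono (fun y => H_le _ _ _ y)
      _ = 1 := by simp
  have hqm : ∀ m, Measurable (fun x => ∫⁻ y, H P Fb Fc (m+1) y ∂(P x)) := fun m =>
    Measurable.lintegral_kernel (hHm m)
  -- the measures κ n
  set κ : ℕ → Measure S' := fun n => (step P Fa)^[n] (μ'.map (X 0)) with hκ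
  have hκfin : ∀ n, IsFiniteMeasure (κ n) := fun n => iter_fin _ _ _
  set α : ℕ → Fin r → ℝ := fun n j => ∫ x in Fa, a j x ∂(κ n) with hα
  have haint : ∀ n j, Integrable (a j) ((κ n).restrict Fa) := by
    intro n j
    haveI := hκfin n
    obtain ⟨C, hC⟩ := hbd j
    exact Integrable.of_bound (ham j).aestronglyMeasurable C (by filter_upwards with x using hC x)
  have hκval : ∀ n B, MeasurableSet B → (κ (n+1) B).toReal = ∫ y in B, (∑ j, α n j * g j y) ∂ν := by
    intro n B hB
    haveI := hκfin n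
    have e1 : κ (n+1) B = ∫⁻ x in Fa, P x B ∂(κ n) := by
      simp only [hκ]; rw [Function.iterate_succ_apply', step_apply _ _ hB]
    rw [e1, ← integral_toReal (P.measurable_coe hB).aemeasurable
      (by filter_upwards with x using measure_lt_top _ _)]
    simp_rw [hP _ B hB]
    rw [integral_finsetSum _ (fun j _ => (haint n j).mul_const _),
      integral_finsetSum _ (fun j _ => ((hgi j).integrableOn.const_mul _))]
    refine Finset.sum_congr rfl (fun j _ => ?_)
    rw [integral_mul_const, integral_const_mul, hg j B hB]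
  set Bf : ℕ → S' → ℝ := fun n y => ∑ j, α n j * g j y with hBf
  have hBm : ∀ n, Measurable (Bf n) := fun n => by simp only [hBf]; fun_prop
  have hBi : ∀ n, Integrable (Bf n) ν := fun n =>
    integrable_finsetSum _ (fun j _ => (hgi j).const_mul _)
  have hB0 : ∀ n, ∀ᵐ x ∂ν, 0 ≤ Bf n x := by
    intro n
    haveI := hκfin (n+1)
    exact (density_eq (κ := κ (n+1)) (hBm n) (hBi n) (hκval n)).1
  -- the word probabilities
  have hword : ∀ n m, (μ' {ω | (∀ i < n+2+(m+1), X i ω ∈ (if i < n+2 then Fa else Fb)) ∧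
      X (n+2+(m+1)) ω ∈ Fc}).toReal = ∫ x in Fa, q m x * Bf n x ∂ν := by
    intro n m
    haveI := hκfin (n+1)
    rw [word_prob hX hFa hFb hFc n m]
    exact density_lintegral (κ := κ (n+1)) (hBm n) (hBi n) (hκval n) (hqm m) (hHle m) Fa hFa
  -- essential span
  set f : S' → (Fin r × Fin r → ℝ) := fun x jk => g jk.1 x * a jk.2 x with hf
  set G : Set S' := {x | ∀ n, 0 ≤ Bf n x} with hG
  have hGae : ∀ᵐ x ∂(ν.restrict Fa), x ∈ G := by
    refine ae_restrict_of_ae ?_
    exact ae_all_iff.2 hB0
  obtain ⟨t, htfin, htG, ht⟩ := ess_span (ν.restrict Fa) f G hGae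
  -- functionals
  set φ : ℕ → ℕ → (Fin r × Fin r → ℝ) →ₗ[ℝ] ℝ := fun n m =>
    ∑ jk : Fin r × Fin r, (α n jk.1 * β m jk.2) • (LinearMap.proj jk) with hφ
  have hφf : ∀ n m x, φ n m (f x) = Bf n x * q m x := by
    intro n m x
    simp only [hφ, hf, hBf]
    rw [hqβ, Finset.sum_mul_sum, LinearMap.sum_apply, ← Finset.univ_product_univ,
      Finset.sum_product]
    refine Finset.sum_congr rfl (fun j _ => Finset.sum_congr rfl (fun k _ => ?_))
    simp only [LinearMap.smul_apply, LinearMap.proj_apply, smul_eq_mul]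
    ring
  refine no_finite_support t htfin Bf q (fun n x hx => htG hx n) (fun m x _ => hq0 m x) ?_
  intro n m
  rw [← h n m]
  have h1 := ht (φ n m)
  simp only [hφf] at h1
  rw [← h1]
  have hint : Integrable (fun x => q m x * Bf n x) (ν.restrict Fa) := by
    refine (hBi n).integrableOn.bdd_mul (c := 1) (hqm m).ennreal_toReal.aestronglyMeasurable ?_
    filter_upwards with y
    rw [Real.norm_eq_abs, abs_of_nonneg ENNReal.toReal_nonneg]
    exact ENNReal.toReal_le_of_le_ofReal zero_le_one (by simpa using hHle m y)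
  have hnn : 0 ≤ᵐ[ν.restrict Fa] (fun x => q m x * Bf n x) := by
    filter_upwards [hGae] with x hx
    exact mul_nonneg (hq0 m x) (hx n)
  have h2 := integral_eq_zero_iff_of_nonneg_ae hnn hint
  have h3 := hword n m
  have h4 : μ' {ω | (∀ i < n+2+(m+1), X i ω ∈ (if i < n+2 then Fa else Fb)) ∧
      X (n+2+(m+1)) ω ∈ Fc} = 0 ↔ (μ' {ω | (∀ i < n+2+(m+1), X i ω ∈ (if i < n+2 then Fa else Fb)) ∧
      X (n+2+(m+1)) ω ∈ Fc}).toReal = 0 := by
    rw [ENNReal.toReal_eq_zero_iff]
    constructor
    · intro h; left; exact h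
    · rintro (h | h)
      · exact h
      · exact absurd h (measure_ne_top _ _)
  rw [h4, h3, h2]
  constructor
  · intro h5
    filter_upwards [h5] with x hx
    simp only [Pi.zero_apply]
    rw [mul_comm]; exact hx
  · intro h5
    filter_upwards [h5] with x hx
    simp only [Pi.zero_apply] at hx
    rw [mul_comm]; exact hx

end

end Pool.V1138.RK
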